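import Mathlib

namespace Pool.Agent.H.MP_28611e_an

open Filter Topology

def g (Y z : ℝ) : ℝ := 1 + (z ^ 2 - 1) * (1 + Y)

lemma le_g {Y z : ℝ} (hY : 1 < Y) (hz : 1 ≤ z) : z ≤ g Y z := by
  unfold g
  nlinarith [mul_nonneg (sub_nonneg.2 hz) (sub_nonneg.2 hY.le), mul_nonneg (mul_nonneg
    (sub_nonneg.2 hz) (sub_nonneg.2 hz)) (sub_nonneg.2 hY.le), sq_nonneg (z - 1)]

lemma g_lt {Y a b : ℝ} (hY : 1 < Y) (ha : 1 ≤ a) (h : a < b) : g Y a < g Y b := by
  unfold g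
  have : a ^ 2 < b ^ 2 := by gcongr
  gcongr

lemma g_le {Y a b : ℝ} (hY : 1 < Y) (ha : 1 ≤ a) (h : a ≤ b) : g Y a ≤ g Y b :=
  h.eq_or_lt.elim (fun e => e ▸ le_rfl) fun l => (g_lt hY ha l).le

lemma it_ge {a : ℝ} (ha : 1 ≤ a) (m : ℕ) : a ≤ (g 9999)^[m] a := by
  induction m with
  | zero => exact le_rfl
  | succ m ih => rw [Function.iterate_succ_apply']; exact ih.trans (le_g (by norm_num) (ha.trans ih))

lemma it_lt {a b : ℝ} (ha : 1 ≤ a) (h : a < b) (m : ℕ) : (g 9999)^[m] a < (g 9999)^[m] b := by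
  induction m with
  | zero => exact h
  | succ m ih =>
    rw [Function.iterate_succ_apply', Function.iterate_succ_apply']
    exact g_lt (by norm_num) (ha.trans (it_ge ha m)) ih

structure Ch (Y : ℕ → ℝ) (d : ℕ → Bool) (ρ : ℕ → ℝ → ℝ) : Prop where
  one : ∀ j, 1 < Y j
  o : ∀ j z, d j = false → 1 ≤ z →
    ρ j z = (ρ (j + 1) (g (Y j) z) + ρ (j + 1) (Y j)) / ((1 + Y j) * z)
  e : ∀ j z, d j = true → 1 ≤ z →
    ρ j z = z * ρ (j + 1) (g (Y j) z) / (ρ (j + 1) (g (Y j) z) + ρ (j + 1) (Y j))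
  pos : ∀ j z, 1 ≤ z → 0 < ρ j z
  mono : ∀ j a b, 1 ≤ a → a ≤ b → ρ j a ≤ ρ j b
  up : ∀ j z, 1 ≤ z → ρ j z ≤ z
  lo : ∀ j z, 1 ≤ z → z - 1 / z ≤ ρ j z

variable {Y : ℕ → ℝ} {d : ℕ → Bool} {ρ : ℕ → ℝ → ℝ}

lemma Ch.run (H : Ch Y d ρ) (m : ℕ) : ∀ j a b, (∀ l < m, Y (j + l) = 9999 ∧ d (j + l) = true) →
    1 ≤ a → a ≤ b → (g 9999)^[m] b ≤ 2 → ρ j b ≤ 2 / 4000 ^ m ∧ b - 1 ≤ 1 / 2 ^ m ∧
    ρ j a * ρ (j + m) ((g 9999)^[m] b) ≤
      (1 + (1 - 1 / 2 ^ m) / 1000) * (ρ (j + m) ((g 9999)^[m] a) * ρ j b) ∧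
    ρ j b * ρ (j + m) ((g 9999)^[m] a) ≤
      (1 + (1 - 1 / 2 ^ m) / 1000) * (ρ (j + m) ((g 9999)^[m] b) * ρ j a) := by
  induction m with
  | zero =>
    intro j a b _ ha hb h
    simp only [Function.iterate_zero, id_eq, pow_zero, add_zero] at *
    exact ⟨by linarith [H.up j b (ha.trans hb)], by linarith, by linarith, by linarith⟩
  | succ m ih =>
    intro j a b hl ha hb h
    have n1 : (1 : ℝ) < 9999 := by norm_num
    have b1 := ha.trans hb
    have a1 := ha.trans (le_g n1 ha)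
    obtain ⟨i1, i2, i3, i4⟩ := ih (j + 1) _ _ (fun l k => by
      rw [add_assoc, add_comm 1]; exact hl _ (by omega)) a1 (g_le n1 ha hb) h
    obtain ⟨y, dd⟩ := hl 0 (by omega)
    rw [add_zero] at y dd
    rw [H.e j a dd ha, H.e j b dd b1, y, show j + (m + 1) = j + 1 + m by ring,
      Function.iterate_succ_apply, Function.iterate_succ_apply]
    have w := H.lo (j + 1) 9999 n1.le
    have u0 := H.pos (j + 1) _ a1
    have uv := H.mono (j + 1) _ _ a1 (g_le n1 ha hb)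
    have U0 := H.pos (j + 1 + m) _ (a1.trans (it_ge a1 m))
    have V0 := H.pos (j + 1 + m) _ ((b1.trans (le_g n1 b1)).trans (it_ge (b1.trans (le_g n1 b1)) m))
    generalize ρ (j + 1) (g 9999 a) = u at *
    generalize ρ (j + 1) (g 9999 b) = v at *
    generalize ρ (j + 1) 9999 = W at *
    generalize ρ (j + 1 + m) ((g 9999)^[m] (g 9999 a)) = U at *
    generalize ρ (j + 1 + m) ((g 9999)^[m] (g 9999 b)) = V at *
    have t4 : (1 : ℝ) / 4000 ^ m ≤ 1 / 2 ^ m := by gcongr; norm_num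
    have t1 : (1 : ℝ) / 2 ^ m ≤ 1 := by rw [div_le_one (by positivity)]; exact one_le_pow₀ one_le_two
    have t0 : (0 : ℝ) < 1 / 2 ^ m := by positivity
    rw [pow_succ, pow_succ, ← div_div, ← div_div, show (2 : ℝ) / 4000 ^ m = 2 * (1 / 4000 ^ m) by ring]
      at *
    generalize (1 : ℝ) / 2 ^ m = t at *
    generalize (1 : ℝ) / 4000 ^ m = r at *
    have hb2 : b - 1 ≤ t / 20000 := by unfold g at i2; nlinarith [sq_nonneg (b - 1)]
    have p1 : 0 < u + W := by linarith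
    have p2 : 0 < v + W := by linarith
    refine ⟨?_, by linarith, ?_, ?_⟩
    · rw [div_le_iff₀ p2]; nlinarith
    · have k : (1 + (1 - t) / 1000) * (v + W) ≤ (1 + (1 - t / 2) / 1000) * (u + W) := by nlinarith
      rw [div_mul_eq_mul_div, mul_div_assoc', mul_div_assoc', div_le_div_iff₀ p1 p2]
      calc _ = a * (u * V) * (v + W) := by ring
        _ ≤ b * ((1 + (1 - t) / 1000) * (U * v)) * (v + W) := by gcongr
        _ = b * (U * v) * ((1 + (1 - t) / 1000) * (v + W)) := by ring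
        _ ≤ b * (U * v) * ((1 + (1 - t / 2) / 1000) * (u + W)) := by
          have : 0 < v := by linarith
          gcongr
        _ = _ := by ring
    · have k : b * (1 + (1 - t) / 1000) ≤ a * (1 + (1 - t / 2) / 1000) := by nlinarith
      rw [div_mul_eq_mul_div, mul_div_assoc', mul_div_assoc', div_le_div_iff₀ p2 p1]
      have : 0 < 1 + (1 - t / 2) / 1000 := by linarith
      calc _ = b * (v * U) * (u + W) := by ring
        _ ≤ b * ((1 + (1 - t) / 1000) * (V * u)) * (v + W) := by gcongr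
        _ = b * (1 + (1 - t) / 1000) * (V * u) * (v + W) := by ring
        _ ≤ a * (1 + (1 - t / 2) / 1000) * (V * u) * (v + W) := by gcongr
        _ = _ := by ring

def s (p : ℕ) : ℕ := p ^ 2 + 2 * p

lemma s_succ (p : ℕ) : s (p + 1) = s p + 2 + (2 * p + 1) := by unfold s; ring

lemma s_mono {p q : ℕ} (h : p ≤ q) : s p ≤ s q := by unfold s; gcongr

def Gd (j N : ℕ) (z : ℝ) : Prop := 1 ≤ z ∧ (z - 1) * 30000 ^ N ≤ 30000 ^ j / 3

lemma Gd.le {j N : ℕ} {z : ℝ} (h : Gd j N z) (k : j ≤ N) : z ≤ 4 / 3 := by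
  have : (30000 : ℝ) ^ j ≤ 30000 ^ N := by gcongr; norm_num
  have p : (0 : ℝ) < 30000 ^ N := by positivity
  by_contra l
  nlinarith [h.2]

lemma Gd.lt {j N : ℕ} {z : ℝ} (h : Gd j N z) (k : j < N) : z ≤ 1.001 := by
  have : (30000 : ℝ) ^ (j + 1) ≤ 30000 ^ N := by gcongr; norm_num; omega
  have p : (0 : ℝ) < 30000 ^ N := by positivity
  rw [pow_succ] at this
  by_contra l
  nlinarith [h.2]

lemma Gd.step {j N : ℕ} {z y : ℝ} (h : Gd j N z) (k : j ≤ N) (y1 : 1 < y) (y2 : y ≤ 9999) :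
    Gd (j + 1) N (g y z) := by
  refine ⟨h.1.trans (le_g y1 h.1), ?_⟩
  have a := h.le k
  have b : g y z - 1 ≤ 30000 * (z - 1) := by
    have : (z + 1) * (1 + y) ≤ 30000 := by nlinarith [h.1]
    unfold g
    nlinarith [h.1]
  have p : (0 : ℝ) < 30000 ^ N := by positivity
  rw [pow_succ]
  nlinarith [h.2]

lemma Gd.it {j N : ℕ} {z : ℝ} (h : Gd j N z) {m : ℕ} (k : j + m ≤ N) :
    Gd (j + m) N ((g 9999)^[m] z) := by
  induction m with
  | zero => exact h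
  | succ m ih =>
    rw [Function.iterate_succ_apply']
    exact (ih (by omega)).step (by omega) (by norm_num) le_rfl

structure Par (Y : ℕ → ℝ) : Prop where
  one : ∀ j, 1 < Y j
  le : ∀ j, Y j ≤ 9999
  dec : ∀ p, Y (s (p + 1)) ≤ Y (s p)
  c : ∀ p, ∃ m, Gd 0 (s (p + 1 + (m + 1))) (Y (s p)) ∧ (7 / 8 : ℝ) ^ m ≤ 1 / 2 ^ p / 16000
  sx : ∀ p, (g 9999)^[2 * p + 1] (Y (s p + 1)) = 4 / 3
  l : ∀ p, ∀ l < 2 * p + 1, Y (s p + 2 + l) = 9999

lemma Gd.up {j j' N : ℕ} {z : ℝ} (h : Gd j N z) (k : j ≤ j') : Gd j' N z :=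
  ⟨h.1, h.2.trans (by gcongr; norm_num)⟩

lemma Par.cmp (P : Par Y) {p N : ℕ} {a : ℝ} (h : Gd (s p + 2) N a) (k : s (p + 1) ≤ N) :
    a ≤ Y (s p + 1) := by
  by_contra l
  have := it_lt (P.one _).le (not_le.1 l) (2 * p + 1)
  rw [s_succ] at k
  linarith [(h.it k).le k, P.sx p]

def Fol (d : ℕ → Bool) (p : ℕ) : Prop :=
  ∀ q < p, d (s q) = false ∧ d (s q + 1) = true ∧ ∀ l < 2 * q + 1, d (s q + 2 + l) = true

def Sm (d : ℕ → Bool) (i : ℕ) : Prop :=
  Fol d i ∧ d (s i) = false ∧ d (s i + 1) = false ∧ ∀ l < 2 * i + 1, d (s i + 2 + l) = true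

lemma Ch.half (H : Ch Y d ρ) {j : ℕ} {z : ℝ} (h : d j = false) (hz : 1 ≤ z) :
    ρ j z ≤ (ρ (j + 1) (g (Y j) z) + ρ (j + 1) (Y j)) / 2 := by
  rw [H.o j z h hz]
  have := H.pos (j + 1) _ (hz.trans (le_g (H.one j) hz))
  have := H.pos (j + 1) _ (H.one j).le
  gcongr
  nlinarith [H.one j]

lemma Ch.small (H : Ch Y d ρ) (P : Par Y) {i : ℕ} (h : Sm d i) (r : ℕ) : ∀ p, p + r = i → ∀ m z,
    Gd (s p) (s (p + m)) z → ρ (s p) z ≤ 1 / 2 ^ p / 1000 + 2 * (7 / 8) ^ m := by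
  induction r with
  | zero =>
    intro p hp m z hz
    obtain rfl : p = i := hp
    have t0 : (0 : ℝ) < 1 / 2 ^ p := by positivity
    rcases m with _ | m
    · linarith [H.up (s p) z hz.1, hz.le le_rfl, pow_zero (7 / 8 : ℝ)]
    have k : ∀ N a, s (p + 1) ≤ N → Gd (s p + 1) N a → ρ (s p + 1) a ≤ 1 / 2 ^ p / 1000 := by
      intro N a hN ha
      have b := ha.step (by rw [s_succ] at hN; omega) (P.one (s p + 1)) (P.le _)
      have c := H.mono (s p + 2) _ _ b.1 (P.cmp b hN)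
      have e := (H.run _ (s p + 2) _ _ (fun l k => ⟨P.l p l k, h.2.2.2 l k⟩) (P.one _).le le_rfl
        (by rw [P.sx]; norm_num)).1
      have f : (2 : ℝ) / 4000 ^ (2 * p + 1) ≤ 1 / 2 ^ p / 1000 := by
        rw [div_div, div_le_div_iff₀ (by positivity) (by positivity), pow_succ, pow_mul]
        have : (2 : ℝ) ^ p ≤ (4000 ^ 2) ^ p := by gcongr; norm_num
        have : (0 : ℝ) < 2 ^ p := by positivity
        linarith
      linarith [H.half h.2.2.1 ha.1]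
    obtain ⟨n, c1, -⟩ := P.c p
    have := H.half h.2.1 hz.1
    have := k _ _ (s_mono (by omega)) (hz.step (s_mono (by omega)) (P.one (s p)) (P.le _))
    have := k _ _ (s_mono (by omega)) (c1.up (Nat.zero_le _))
    have : (0 : ℝ) < (7 / 8) ^ (m + 1) := by positivity
    linarith
  | succ r ih =>
    intro p hp m z hz
    have t0 : (0 : ℝ) < 1 / 2 ^ p := by positivity
    rcases m with _ | m
    · linarith [H.up (s p) z hz.1, hz.le le_rfl, pow_zero (7 / 8 : ℝ)]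
    obtain ⟨d1, d2, d3⟩ := h.1 p (by omega)
    have k : ∀ m a, Gd (s p + 1) (s (p + 1 + m)) a →
        ρ (s p + 1) a ≤ 7 / 4 * (1 / 2 ^ p / 2 / 1000 + 2 * (7 / 8) ^ m) := by
      intro m a ha
      have hN : s p + 2 + (2 * p + 1) ≤ s (p + 1 + m) := s_succ p ▸ s_mono (by omega)
      have b := ha.step (by omega) (P.one (s p + 1)) (P.le _)
      have e := (H.run _ (s p + 2) _ _ (fun l k => ⟨P.l p l k, d3 l k⟩) b.1
        (P.cmp b (s_succ p ▸ hN)) (by rw [P.sx]; norm_num)).2.2.1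
      have f := ih (p + 1) (by omega) m _ (s_succ p ▸ b.it hN)
      rw [P.sx, ← s_succ] at e
      have x := H.lo (s (p + 1)) (4 / 3) (by norm_num)
      have u0 := H.pos (s p + 2) _ b.1
      have w0 := H.pos (s p + 2) _ (P.one (s p + 1)).le
      have U0 := H.pos (s (p + 1)) _ (b.it hN).1
      have a2 := ha.lt (by omega)
      have t1 : (0 : ℝ) < 1 / 2 ^ (2 * p + 1) := by positivity
      rw [H.e _ _ d2 ha.1, div_le_iff₀ (by positivity)]
      rw [pow_succ, ← div_div] at f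
      generalize ρ (s p + 1 + 1) (g (Y (s p + 1)) a) = u at *
      generalize ρ (s p + 1 + 1) (Y (s p + 1)) = w at *
      generalize ρ (s (p + 1)) ((g 9999)^[2 * p + 1] (g (Y (s p + 1)) a)) = U at *
      generalize 1 / 2 ^ p / 2 / 1000 + 2 * (7 / 8 : ℝ) ^ m = B at *
      have : u * (7 / 12) ≤ 1.001 * (U * w) := by nlinarith [mul_pos U0 w0]
      nlinarith [mul_le_mul_of_nonneg_right f w0.le, mul_pos u0 (U0.trans_le f), mul_pos U0 w0]
    obtain ⟨n, c1, c2⟩ := P.c p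
    have := H.half d1 hz.1
    have := k m _ (by
      rw [add_assoc, add_comm 1]; exact hz.step (s_mono (by omega)) (P.one (s p)) (P.le _))
    have := k _ _ (c1.up (Nat.zero_le _))
    have : (0 : ℝ) < (7 / 8) ^ n := by positivity
    rw [pow_succ] at *
    linarith

def Bg (d : ℕ → Bool) (p : ℕ) : Prop :=
  Fol d p ∧ d (s p) = false ∧ d (s p + 1) = true ∧ ∃ l ≤ 2 * p + 1, (∀ k < l, d (s p + 2 + k) = true) ∧
    (d (s p + 2 + l) = true ↔ l = 2 * p + 1)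

lemma Ch.com (H : Ch Y d ρ) (P : Par Y) {p l : ℕ} (h1 : d (s p + 1) = true) (hl : l ≤ 2 * p + 1)
    (h2 : ∀ k < l, d (s p + 2 + k) = true) (h : ∀ a b, Y (s p) ≤ a → a ≤ 1.001 → a ≤ b →
      b ≤ 4 / 3 → (l = 2 * p + 1 → b = 4 / 3) → ρ (s p + 2 + l) b ≤ 38.9 * ρ (s p + 2 + l) a) :
    1 ≤ 40 * ρ (s p + 1) (Y (s p)) := by
  obtain ⟨n, c1, -⟩ := P.c p
  have hN : s p + 2 + (2 * p + 1) < s (p + 1 + (n + 1)) :=
    lt_of_lt_of_le (by rw [s_succ, s_succ]; omega) (s_mono (show p + 1 + 1 ≤ _ by omega))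
  have b := (c1.up (Nat.zero_le _)).step (j := s p + 1) (by omega) (P.one (s p + 1)) (P.le _)
  have ab := P.cmp b (s_succ p ▸ hN.le)
  have b4 : (g 9999)^[l] (Y (s p + 1)) ≤ 4 / 3 := by
    rw [← P.sx p, ← Nat.sub_add_cancel hl, Function.iterate_add_apply]
    exact it_ge ((P.one _).le.trans (it_ge (P.one _).le l)) _
  have e := (H.run l (s p + 2) _ _ (fun k hk => ⟨P.l p k (by omega), h2 k hk⟩) b.1 ab
    (by linarith)).2.2.2
  have f := h _ _ ((le_g (P.one _) (P.one _).le).trans (it_ge b.1 l))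
    ((b.it (by omega)).lt (by omega)) (ab.eq_or_lt.elim (fun e => by rw [e]) fun k =>
      (it_lt b.1 k l).le) b4 fun k => k ▸ P.sx p
  have u0 := H.pos (s p + 2) _ b.1
  have w0 := H.pos (s p + 2) _ (P.one (s p + 1)).le
  have U0 := H.pos (s p + 2 + l) _ (b.it (m := l) (by omega)).1
  have V0 := H.pos (s p + 2 + l) _ ((P.one (s p + 1)).le.trans (it_ge (P.one _).le l))
  have t1 : (0 : ℝ) < 1 / 2 ^ l := by positivity
  rw [H.e _ _ h1 (P.one _).le, mul_div_assoc', le_div_iff₀ (by positivity)]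
  generalize ρ (s p + 1 + 1) (g (Y (s p + 1)) (Y (s p))) = u at *
  generalize ρ (s p + 1 + 1) (Y (s p + 1)) = w at *
  generalize ρ (s p + 2 + l) ((g 9999)^[l] (g (Y (s p + 1)) (Y (s p)))) = U at *
  generalize ρ (s p + 2 + l) ((g 9999)^[l] (Y (s p + 1))) = V at *
  have : w * U ≤ 39 * u * U := by
    nlinarith [mul_pos V0 u0, mul_le_mul_of_nonneg_right f u0.le, mul_pos U0 u0]
  have := le_of_mul_le_mul_right this U0
  nlinarith [P.one (s p)]

lemma Ch.big (H : Ch Y d ρ) (P : Par Y) {i : ℕ} (h : Bg d i) (r : ℕ) : ∀ p, p + r = i →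
    1 ≤ 40 * ρ (s p + 1) (Y (s p)) := by
  induction r with
  | zero =>
    intro p hp
    obtain rfl : p = i := hp
    obtain ⟨-, -, h1, l, l1, l2, l3⟩ := h
    refine H.com P h1 l1 l2 fun a b a1 a2 ab b1 _ => ?_
    have a0 := (P.one _).le.trans a1
    have := H.up (s p + 2 + l) b (a0.trans ab)
    have u0 := H.pos (s p + 2 + l + 1) _ (a0.trans (le_g (P.one (s p + 2 + l)) a0))
    rcases l1.eq_or_lt with rfl | k
    · have w0 := H.pos (s (p + 1) + 1) _ (P.one (s (p + 1))).le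
      have := H.mono (s (p + 1) + 1) _ _ (P.one _).le ((P.dec p).trans (a1.trans
        (le_g (P.one (s (p + 1))) a0)))
      rw [H.e _ a (l3.2 rfl) a0, ← s_succ, mul_div_assoc', le_div_iff₀ (by linarith)] at *
      nlinarith
    · have := H.lo (s p + 2 + l + 1) 9999 (by norm_num)
      rw [H.o _ a (by simpa [k.ne] using l3) a0, P.l p l k, mul_div_assoc',
        le_div_iff₀ (by positivity)] at *
      nlinarith
  | succ r ih =>
    intro p hp
    obtain ⟨-, d2, d3⟩ := h.1 p (by omega)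
    refine H.com P d2 le_rfl d3 fun a b a1 a2 ab _ b1 => ?_
    obtain rfl := b1 rfl
    have t := ih (p + 1) (by omega)
    have a0 := (P.one _).le.trans a1
    have dd : d (s (p + 1)) = false := by
      rcases r with _ | r
      · exact (show p + 1 = i from hp) ▸ h.2.1
      · exact (h.1 _ (by omega)).1
    obtain ⟨n, c1, -⟩ := P.c (p + 1)
    have y := c1.lt (lt_of_lt_of_le (by rw [s_succ]; omega) (s_mono (show p + 1 ≤ _ by omega)))
    have y1 := P.one (s (p + 1))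
    have u := H.mono (s (p + 1) + 1) _ _ y1.le ((P.dec p).trans (a1.trans (le_g y1 a0)))
    have v := H.up (s (p + 1) + 1) _ (le_trans (by norm_num) (le_g y1 (z := 4 / 3) (by norm_num)))
    have gx : g (Y (s (p + 1))) (4 / 3) ≤ 2.5564 := by unfold g; linarith
    rw [← s_succ, H.o _ a dd a0, H.o _ _ dd (by norm_num), ← mul_div_assoc 38.9,
      div_le_div_iff₀ (by positivity) (by positivity), mul_left_comm, mul_left_comm _ (1 + _)]
    refine mul_le_mul_of_nonneg_left ?_ (by linarith)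
    generalize ρ (s (p + 1) + 1) (Y (s (p + 1))) = w at *
    generalize ρ (s (p + 1) + 1) (g (Y (s (p + 1))) (4 / 3)) = V at *
    have : (V + w) * a ≤ (2.5564 * (40 * w) + w) * 1.001 := by gcongr <;> linarith
    linarith

lemma flip (k v c : ℕ) : (∀ j < v, (k + 2 ^ v * (2 * c + 1)).testBit j = k.testBit j) ∧
    (k + 2 ^ v * (2 * c + 1)).testBit v = !k.testBit v := by
  have e : ∀ j t, (k + 2 ^ j * t) / 2 ^ j = k / 2 ^ j + t := fun j t =>
    Nat.add_mul_div_left _ _ (by positivity)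
  simp only [Nat.testBit_eq_decide_div_mod_eq]
  refine ⟨fun j hj => ?_, ?_⟩
  · obtain ⟨i, rfl⟩ := Nat.exists_eq_add_of_lt hj
    rw [add_assoc, pow_add, mul_assoc, e, pow_succ, mul_comm _ 2, mul_assoc, Nat.add_mul_mod_self_left]
  · rw [e]
    by_cases h : k / 2 ^ v % 2 = 1 <;> simp only [h, decide_true, decide_false, Bool.not_true,
      Bool.not_false, decide_eq_true_eq, decide_eq_false_iff_not] <;> omega

lemma bits (f : ℕ → Bool) (M N : ℕ) : ∃ k, M ≤ k ∧ ∀ j < N, k.testBit j = f j := by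
  induction N with
  | zero => exact ⟨M, le_rfl, by simp⟩
  | succ N ih =>
    obtain ⟨k, k1, k2⟩ := ih
    by_cases h : k.testBit N = f N
    · exact ⟨k, k1, fun j hj => (Nat.lt_succ_iff.1 hj).eq_or_lt.elim (· ▸ h) (k2 j)⟩
    · refine ⟨_, k1.trans le_self_add, fun j hj => (Nat.lt_succ_iff.1 hj).eq_or_lt.elim
        (fun e => ?_) fun l => ((flip k N 0).1 j l).trans (k2 j l)⟩
      rw [e, (flip k N 0).2]
      revert h
      cases k.testBit N <;> cases f N <;> simp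

lemma notC (q l : ℕ) (hl : l < 2 * q + 2) (p : ℕ) : s q + 1 + l ≠ s p := fun h => by
  rcases le_or_gt p q with k | k
  · have := s_mono k; omega
  · have := s_mono (show q + 1 ≤ p from k); rw [s_succ] at this; omega

lemma exSm (i M : ℕ) : ∃ k, M ≤ k ∧ Sm k.testBit i := by
  classical
  obtain ⟨k, k1, k2⟩ := bits (fun j => decide (j ≠ s i + 1 ∧ ∀ p, j ≠ s p)) M (s (i + 1))
  have a := s_succ i
  refine ⟨k, k1, fun q hq => ?_, ?_, ?_, fun l hl => ?_⟩
  · have b := s_mono (show q + 1 ≤ i from hq)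
    rw [s_succ] at b
    refine ⟨?_, ?_, fun l hl => ?_⟩
    · rw [k2 _ (by omega)]; simp
    · rw [k2 _ (by omega)]; simpa using ⟨by omega, notC q 0 (by omega)⟩
    · rw [k2 _ (by omega)]
      simpa using ⟨by omega, fun p => by have := notC q (l + 1) (by omega) p; omega⟩
  · rw [k2 _ (by omega)]; simp
  · rw [k2 _ (by omega)]; simp
  · rw [k2 _ (by omega)]
    simpa using ⟨by omega, fun p => by have := notC i (l + 1) (by omega) p; omega⟩

lemma Sm.congr {d d' : ℕ → Bool} {i : ℕ} (h : Sm d i) (e : ∀ j < s (i + 1), d' j = d j) :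
    Sm d' i := by
  have a := s_succ i
  refine ⟨fun q hq => ?_, by rw [e _ (by omega), h.2.1], by rw [e _ (by omega), h.2.2.1],
    fun l hl => by rw [e _ (by omega), h.2.2.2 l hl]⟩
  have b := s_mono (show q + 1 ≤ i from hq)
  rw [s_succ] at b
  exact ⟨by rw [e _ (by omega), (h.1 q hq).1], by rw [e _ (by omega), (h.1 q hq).2.1],
    fun l hl => by rw [e _ (by omega), (h.1 q hq).2.2 l hl]⟩

lemma pair {τ : ℕ} (h0 : τ ≠ 0) (M : ℕ) : ∃ k, M ≤ k ∧ (∃ i, Sm k.testBit i) ∧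
    ∃ p, Bg (k + 2 * τ).testBit p := by
  obtain ⟨v, o, ⟨c, rfl⟩, rfl⟩ := Nat.exists_eq_two_pow_mul_odd h0
  rw [← mul_assoc, ← pow_succ']
  obtain ⟨p, p1, p2⟩ : ∃ p, s p ≤ v ∧ v < s (p + 1) := by
    refine ⟨(v + 1).sqrt - 1, ?_⟩
    have := Nat.sqrt_le' (v + 1)
    have := Nat.lt_succ_sqrt' (v + 1)
    obtain ⟨t, ht⟩ : ∃ t, (v + 1).sqrt = t + 1 := Nat.exists_eq_succ_of_ne_zero (Nat.sqrt_pos.2 (by omega)).ne'
    simp only [ht, Nat.succ_eq_add_one, add_tsub_cancel_right, s] at *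
    constructor <;> nlinarith
  have a := s_succ p
  have fo : ∀ k, Fol k.testBit p → Fol (k + 2 ^ (v + 1) * (2 * c + 1)).testBit p := by
    intro k h q hq
    have b := s_mono (show q + 1 ≤ p from hq)
    rw [s_succ] at b
    have e := (flip k (v + 1) c).1
    exact ⟨by rw [e _ (by omega), (h q hq).1], by rw [e _ (by omega), (h q hq).2.1],
      fun l hl => by rw [e _ (by omega), (h q hq).2.2 l hl]⟩
  rcases p1.eq_or_lt with rfl | p1
  · obtain ⟨k, k1, k2, k3⟩ : ∃ k, M ≤ k ∧ Sm k.testBit p ∧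
        (k + 2 ^ (s p + 1) * (2 * c + 1)).testBit (s (p + 1)) = true := by
      obtain ⟨k, k1, k2⟩ := exSm p M
      by_cases h : (k + 2 ^ (s p + 1) * (2 * c + 1)).testBit (s (p + 1)) = true
      · exact ⟨k, k1, k2, h⟩
      · refine ⟨_, k1.trans le_self_add, k2.congr (flip k (s (p + 1)) 0).1, ?_⟩
        rw [add_right_comm, (flip _ _ 0).2]
        simpa using h
    obtain ⟨e1, e2⟩ := flip k (s p + 1) c
    refine ⟨k, k1, ⟨p, k2⟩, p, fo k k2.1, by rw [e1 _ (by omega), k2.2.1], by rw [e2, k2.2.2.1]; rfl, ?_⟩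
    have ex : ∃ l, l = 2 * p + 1 ∨ (k + 2 ^ (s p + 1) * (2 * c + 1)).testBit (s p + 2 + l) = false :=
      ⟨_, Or.inl rfl⟩
    classical
    refine ⟨Nat.find ex, Nat.find_min' ex (Or.inl rfl), fun l hl => by
      simpa using (not_or.1 (Nat.find_min ex hl)).2, fun h => ?_, fun h => by rw [h, ← a, k3]⟩
    exact (Nat.find_spec ex).resolve_right (by simp [h])
  · obtain ⟨k, k1, k2⟩ := exSm (p + 1) M
    obtain ⟨e1, e2⟩ := flip k (v + 1) c
    obtain ⟨f1, f2, f3⟩ := k2.1 p (by omega)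
    obtain ⟨l, rfl⟩ := Nat.exists_eq_add_of_lt p1
    refine ⟨k, k1, ⟨_, k2⟩, p, fo k fun q hq => k2.1 q (by omega), by rw [e1 _ (by omega), f1],
      by rw [e1 _ (by omega), f2], l, by omega, fun j hj => by
        rw [e1 _ (by omega), f3 j (by omega)], ?_⟩
    rw [show s p + l + 1 + 1 = s p + 2 + l by ring] at *
    rw [e2]
    by_cases h : l = 2 * p + 1
    · rw [h, ← a, k2.2.1]; simp
    · rw [f3 l (by omega)]; simp [h]

lemma exPar : ∃ Y, Par Y := by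
  have e1 : ∀ n, ∃ y, 1 < y ∧ (g 9999)^[n] y = 4 / 3 := fun n => by
    have c : Continuous (g 9999)^[n] := Continuous.iterate (by unfold g; fun_prop) n
    have f : (g 9999)^[n] 1 = 1 := Function.iterate_fixed (by simp [g]) n
    obtain ⟨y, y1, y2⟩ := intermediate_value_Icc (a := 1) (b := 4 / 3) (by norm_num) c.continuousOn
      (show 4 / 3 ∈ _ from ⟨by rw [f]; norm_num, it_ge (by norm_num) n⟩)
    exact ⟨y, y1.1.lt_of_ne fun e => by rw [← e, f] at y2; norm_num at y2, y2⟩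
  choose y y1 y2 using e1
  let Y : ℕ → ℝ := fun j => if j + 1 = (j + 1).sqrt ^ 2 then
    1 + 1 / 3 / 30000 ^ s (7 * (j + 1).sqrt + 100) else if j = (j + 1).sqrt ^ 2 then
      y (2 * (j + 1).sqrt - 1) else 9999
  have sq : ∀ p l, l ≤ 2 * p + 2 → (s p + l + 1).sqrt = p + 1 := fun p l hl => by
    rw [show s p + l + 1 = (p + 1) ^ 2 + l by unfold s; ring]
    exact Nat.sqrt_add_eq' _ (by omega)
  have sp : ∀ p, s p + 1 = (p + 1) ^ 2 := fun p => by unfold s; ring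
  have c : ∀ p, Y (s p) = 1 + 1 / 3 / 30000 ^ s (7 * (p + 1) + 100) := fun p => by
    simp only [Y, show (s p + 1).sqrt = p + 1 from sq p 0 (by omega), if_pos (sp p)]
  refine ⟨Y, fun j => ?_, fun j => ?_, fun p => ?_, fun p => ⟨6 * p + 105, ⟨?_, ?_⟩, ?_⟩,
    fun p => ?_, fun p l hl => ?_⟩
  · simp only [Y]
    split_ifs
    exacts [lt_add_of_pos_right _ (by positivity), y1 _, by norm_num]
  · simp only [Y]
    split_ifs
    · have := div_le_self (show (0 : ℝ) ≤ 1 / 3 by norm_num)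
        (one_le_pow₀ (n := s (7 * (j + 1).sqrt + 100)) (show (1 : ℝ) ≤ 30000 by norm_num))
      linarith
    · linarith [it_ge (y1 (2 * (j + 1).sqrt - 1)).le (2 * (j + 1).sqrt - 1), y2 (2 * (j + 1).sqrt - 1)]
    · exact le_rfl
  · rw [c, c]
    gcongr
    · norm_num
    · exact s_mono (by omega)
  · rw [c]; exact le_add_of_nonneg_right (by positivity)
  · rw [c, show p + 1 + (6 * p + 105 + 1) = 7 * (p + 1) + 100 by ring, add_sub_cancel_left,
      div_mul_cancel₀ _ (by positivity), pow_zero]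
  · rw [pow_add, pow_mul, ← one_div_pow, div_eq_mul_one_div _ 16000]
    gcongr <;> norm_num
  · have := sp p
    simp only [Y, sq p 1 (by omega), if_pos (sp p)]
    rw [if_neg (by omega)]
    exact y2 _
  · have := sp p
    simp only [Y, add_assoc (s p) 2, sq p (2 + l) (by omega)]
    rw [if_neg (by omega), if_neg (by omega)]

theorem gapA : ∃ Y : ℕ → ℝ, (∀ j, 1 < Y j ∧ Y j ≤ 9999) ∧ (∀ N, ∃ j ≥ N, Y j = 9999) ∧
    ∀ ρ : ℕ → ℕ → ℝ → ℝ, (∀ k : ℕ, Ch Y k.testBit (ρ k)) → ∀ τ ≠ 0, ∀ M, ∃ k, M ≤ k ∧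
      k % 2 = 0 ∧ ρ k 1 (Y 0) / (1 + Y 0) ≤ (1 / 20) ^ 2 ∧
        (1 / 10) ^ 2 ≤ ρ (k + 2 * τ) 1 (Y 0) / (1 + Y 0) := by
  obtain ⟨Y, P⟩ := exPar
  refine ⟨Y, fun j => ⟨P.one j, P.le j⟩, fun N => ⟨_, ?_, P.l N 0 (by omega)⟩,
    fun ρ H τ h0 M => ?_⟩
  · unfold s; omega
  obtain ⟨k, k1, ⟨i, k2⟩, p, k3⟩ := pair h0 M
  have d0 : k.testBit 0 = false := by
    rcases i with _ | i
    exacts [k2.2.1, (k2.1 0 (by omega)).1]
  have y1 := P.one 0
  obtain ⟨n, c1, -⟩ := P.c 0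
  have y : Y 0 ≤ 1.001 :=
    c1.lt (lt_of_lt_of_le (by decide) (s_mono (show 1 ≤ _ by omega)))
  refine ⟨k, k1, by simpa using d0, ?_, ?_⟩
  · have := (H k).small P k2 i 0 (by omega) 60 1 ⟨le_rfl, by simp; positivity⟩
    rw [show s 0 = 0 from rfl, (H k).o 0 1 d0 le_rfl, mul_one, add_div] at this
    have := div_pos ((H k).pos 1 _ (le_g y1 le_rfl)) (show 0 < 1 + Y 0 by linarith)
    norm_num at *
    linarith
  · have := (H _).big P k3 p 0 (by omega)
    rw [le_div_iff₀ (by linarith)]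
    change 1 ≤ 40 * ρ _ 1 (Y 0) at this
    linarith

lemma notAP {a : ℕ → ℝ} {δ : ℝ} (hδ : 0 < δ)
    (h : ∀ τ ≠ 0, ∀ M, ∃ k, M ≤ k ∧ δ ≤ |a (k + 2 * τ) - a k|) {c : ℤ → ℝ}
    (hc : ∀ ε : ℝ, 0 < ε → ∃ L : ℕ, ∀ m : ℤ, ∃ τ : ℤ, m ≤ τ ∧ τ ≤ m + L ∧
      ∀ n : ℤ, |c (n + τ) - c n| < ε) (ht : Tendsto (fun n : ℕ => a n - c n) atTop (𝓝 0)) :
    False := by
  obtain ⟨L, hL⟩ := hc (δ / 4) (by linarith)
  obtain ⟨τ, t1, -, t2⟩ := hL 1
  lift τ to ℕ using by omega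
  obtain ⟨M, hM⟩ := Metric.tendsto_atTop.1 ht (δ / 4) (by linarith)
  obtain ⟨k, k1, k2⟩ := h τ (by omega) M
  have a1 := abs_lt.1 (t2 k)
  have a2 := abs_lt.1 (t2 (k + τ))
  have a3 := hM k k1
  have a4 := hM (k + 2 * τ) (by omega)
  rw [Real.dist_eq, sub_zero, abs_lt] at a3 a4
  rw [show ((k + 2 * τ : ℕ) : ℤ) = k + τ + τ by push_cast; ring] at a4
  exact k2.not_gt (abs_lt.2 ⟨by linarith, by linarith⟩)

end Pool.Agent.H.MP_28611e_an
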