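import Pool.Agent.H.MP_28611e_an.A
import Pool.Agent.H.MP_25eb51_an.D

namespace Pool.Agent.H.MP_28611e_an

open Filter Topology Polynomial MeasureTheory Set Pool.Agent.H.MP_7f7d18_an

noncomputable def P (Y : ℕ → ℝ) : ℕ → ℕ → ℝ[X]
  | 0, _ => 1
  | 1, _ => X
  | n + 2, j => X * P Y (n + 1) j - C ((if (n + 1) % 2 = 1 then
      (P Y ((n + 1) / 2 + 1) (j + 1)).eval (Y j) / (P Y ((n + 1) / 2) (j + 1)).eval (Y j) else
      Y j - (P Y ((n + 1) / 2 + 1) (j + 1)).eval (Y j) / (P Y ((n + 1) / 2) (j + 1)).eval (Y j))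
        / (1 + Y j)) * P Y n j

noncomputable def R (Y : ℕ → ℝ) (j k : ℕ) (z : ℝ) : ℝ := (P Y (k + 1) j).eval z / (P Y k j).eval z

noncomputable def A (Y : ℕ → ℝ) (n j : ℕ) : ℝ :=
  (if n % 2 = 1 then R Y (j + 1) (n / 2) (Y j) else Y j - R Y (j + 1) (n / 2) (Y j)) / (1 + Y j)

variable {Y : ℕ → ℝ}

lemma P0 (j : ℕ) : P Y 0 j = 1 := by rw [P]

lemma P1 (j : ℕ) : P Y 1 j = X := by rw [P]

lemma P2 (n j : ℕ) : P Y (n + 2) j = X * P Y (n + 1) j - C (A Y (n + 1) j) * P Y n j := by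
  rw [P]; rfl

lemma Pe (n j : ℕ) (z : ℝ) : (P Y (n + 2) j).eval z =
    z * (P Y (n + 1) j).eval z - A Y (n + 1) j * (P Y n j).eval z := by
  rw [P2]; simp

lemma Ao (k j : ℕ) : A Y (2 * k + 1) j = R Y (j + 1) k (Y j) / (1 + Y j) := by
  rw [A, if_pos (by omega), show (2 * k + 1) / 2 = k by omega]

lemma Ae (k j : ℕ) : A Y (2 * k) j = (Y j - R Y (j + 1) k (Y j)) / (1 + Y j) := by
  rw [A, if_neg (by omega), show 2 * k / 2 = k by omega]

lemma Pm (n j : ℕ) : (P Y n j).Monic ∧ (P Y n j).natDegree = n ∧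
    ∀ x, (P Y n j).eval (-x) = (-1) ^ n * (P Y n j).eval x := by
  induction n using Nat.twoStepInduction with
  | zero => simp [P0]
  | one => simp [P1]
  | more n a b =>
    have m := monic_X.mul b.1
    have e : (X * P Y (n + 1) j).natDegree = n + 2 := by rw [natDegree_X_mul b.1.ne_zero, b.2.1]
    have l : (C (A Y (n + 1) j) * P Y n j).natDegree < (X * P Y (n + 1) j).natDegree :=
      (natDegree_C_mul_le _ _).trans_lt (by omega)
    refine ⟨P2 n j ▸ m.sub_of_left (degree_lt_degree l), ?_, fun x => ?_⟩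
    · rw [P2, natDegree_sub_eq_left_of_natDegree_lt l, e]
    · rw [Pe, Pe, a.2.2, b.2.2]; ring

lemma ev (hY : ∀ j, 1 < Y j) (k : ℕ) : (∀ m < k, ∀ j z, 1 ≤ z → 0 < (P Y m j).eval z) →
    ∀ j z, (P Y (2 * k) j).eval z = (P Y k (j + 1)).eval (g (Y j) z) / (1 + Y j) ^ k := by
  induction k using Nat.twoStepInduction with
  | zero => simp [P0]
  | one =>
    intro _ j z
    have := hY j
    rw [show 2 * 1 = 0 + 2 from rfl, Pe, show 0 + 1 = 2 * 0 + 1 from rfl, Ao]
    simp only [R, P0, P1, g, mul_zero, zero_add, eval_X, eval_one]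
    field_simp
    ring
  | more k a b =>
    intro h j z
    have y := hY j
    have p1 := (h k (by omega) (j + 1) _ y.le).ne'
    have p2 := (h (k + 1) (by omega) (j + 1) _ y.le).ne'
    have a := a (fun m hm => h m (by omega)) j z
    have b := b (fun m hm => h m (by omega)) j z
    have c := Pe (Y := Y) (2 * k) j z
    have e : (P Y (2 * (k + 2)) j).eval z = (z ^ 2 - A Y (2 * (k + 1) + 1) j - A Y (2 * (k + 1)) j) *
        (P Y (2 * (k + 1)) j).eval z - A Y (2 * (k + 1)) j * A Y (2 * k + 1) j *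
          (P Y (2 * k) j).eval z := by
      rw [show 2 * (k + 2) = 2 * k + 2 + 2 by ring, Pe, Pe, show 2 * (k + 1) = 2 * k + 2 by ring]
      linear_combination A Y (2 * k + 2) j * c
    rw [e, a, b, Ao, Ao, Ae, Pe, R, R, Pe]
    have : 1 + Y j ≠ 0 := by linarith
    field_simp
    unfold g
    ring

lemma pos (hY : ∀ j, 1 < Y j) (n : ℕ) : ∀ j z, 1 ≤ z → 0 < (P Y n j).eval z := by
  induction n using Nat.strong_induction_on with
  | _ n ih =>
    intro j z hz
    have y := hY j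
    have gz := hz.trans (le_g y hz)
    have ee : ∀ k, k < n → 0 < (P Y (2 * k) j).eval z := fun k hk => by
      rw [ev hY k fun m hm => ih m (by omega)]
      exact div_pos (ih k hk _ _ gz) (by positivity)
    obtain ⟨k, rfl | rfl⟩ := Nat.even_or_odd' n
    · rcases k with _ | k
      · simp [P0]
      · exact ee _ (by omega)
    · rcases k with _ | k
      · simpa [P1] using one_pos.trans_le hz
      have c := Pe (Y := Y) (2 * (k + 1)) j z
      have a : 0 < A Y (2 * (k + 1) + 1) j := by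
        rw [Ao]; exact div_pos (div_pos (ih _ (by omega) _ _ y.le) (ih _ (by omega) _ _ y.le)) (by linarith)
      have := ee (k + 2) (by omega)
      rw [show 2 * (k + 2) = 2 * (k + 1) + 2 by ring] at this
      exact (pos_iff_pos_of_mul_pos (show 0 < z * _ by
        linarith [mul_pos a (ee (k + 1) (by omega))])).1 (by linarith)

lemma Rpos (hY : ∀ j, 1 < Y j) (j k : ℕ) {z : ℝ} (hz : 1 ≤ z) : 0 < R Y j k z :=
  div_pos (pos hY _ _ _ hz) (pos hY _ _ _ hz)

lemma Rs (hY : ∀ j, 1 < Y j) (j k : ℕ) {z : ℝ} (hz : 1 ≤ z) :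
    R Y j (k + 1) z = z - A Y (k + 1) j / R Y j k z := by
  have := (pos hY k j z hz).ne'
  have := (pos hY (k + 1) j z hz).ne'
  rw [R, R, Pe]
  field_simp

lemma Apos (hY : ∀ j, 1 < Y j) (n : ℕ) : ∀ j, 0 < A Y (n + 1) j := by
  induction n using Nat.strong_induction_on with
  | _ n ih =>
    intro j
    have y := hY j
    obtain ⟨k, rfl | rfl⟩ := Nat.even_or_odd' n
    · rw [Ao]; exact div_pos (Rpos hY _ _ y.le) (by linarith)
    · rw [show 2 * k + 1 + 1 = 2 * (k + 1) by ring, Ae, Rs hY _ _ y.le, sub_sub_cancel]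
      exact div_pos (div_pos (ih k (by omega) _) (Rpos hY _ _ y.le)) (by linarith)

lemma Rm (hY : ∀ j, 1 < Y j) (j k : ℕ) : (∀ a b, 1 ≤ a → a ≤ b → R Y j k a / a ≤ R Y j k b / b) ∧
    ∀ z, 1 ≤ z → R Y j k z ≤ z ∧ z - 1 / z ≤ R Y j k z := by
  induction k with
  | zero =>
    simp only [R, zero_add, P0, P1, eval_X, eval_one, div_one]
    exact ⟨fun a b ha hb => by rw [div_self (by linarith), div_self (by linarith)],
      fun z hz => ⟨le_rfl, sub_le_self _ (by positivity)⟩⟩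
  | succ k ih =>
    have a0 := Apos hY k j
    refine ⟨fun a b ha hb => ?_, fun z hz => ?_⟩
    · have b1 := ha.trans hb
      have r := Rpos hY j k ha
      have := ih.1 a b ha hb
      rw [div_le_div_iff₀ (by linarith) (by linarith)] at this
      rw [Rs hY _ _ ha, Rs hY _ _ b1, sub_div, sub_div, div_self (by linarith),
        div_self (by linarith), div_div, div_div]
      gcongr
      all_goals nlinarith
    · have r := Rpos hY j k hz
      have r1 := Rpos hY j k le_rfl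
      have := Rpos hY j (k + 1) le_rfl
      rw [Rs hY _ _ le_rfl, sub_pos, div_lt_one r1] at this
      have m := ih.1 1 z le_rfl hz
      rw [div_one, le_div_iff₀ (by linarith)] at m
      rw [Rs hY _ _ hz]
      refine ⟨sub_le_self _ (by positivity), sub_le_sub_left ?_ _⟩
      rw [div_le_div_iff₀ r (by linarith)]
      nlinarith

lemma Ro (hY : ∀ j, 1 < Y j) (j k : ℕ) {z : ℝ} (hz : 1 ≤ z) : R Y j (2 * k) z =
    (R Y (j + 1) k (g (Y j) z) + R Y (j + 1) k (Y j)) / ((1 + Y j) * z) ∧ R Y j (2 * k + 1) z =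
      z * R Y (j + 1) k (g (Y j) z) / (R Y (j + 1) k (g (Y j) z) + R Y (j + 1) k (Y j)) := by
  have y := hY j
  have gz := hz.trans (le_g y hz)
  have c := Pe (Y := Y) (2 * k) j z
  have a := ev hY k (fun m _ => pos hY m) j z
  have b := ev hY (k + 1) (fun m _ => pos hY m) j z
  have p := pos hY k (j + 1) _ gz
  have p1 := pos hY (2 * k + 1) j _ hz
  have p0 := pos hY (2 * k) j _ hz
  have r := Rpos hY (j + 1) k gz
  have r1 := Rpos hY (j + 1) k y.le
  have e : R Y j (2 * k) z = (R Y (j + 1) k (g (Y j) z) + R Y (j + 1) k (Y j)) / ((1 + Y j) * z) := by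
    rw [mul_add, mul_one, c, Ao, a, pow_succ, sub_eq_iff_eq_add, mul_comm z,
      ← eq_div_iff (by linarith)] at b
    rw [R, R, a, b]
    field_simp
  refine ⟨e, ?_⟩
  have f : R Y j (2 * k + 1) z * R Y j (2 * k) z = R Y (j + 1) k (g (Y j) z) / (1 + Y j) := by
    rw [R, R, R, div_mul_div_cancel₀ p1.ne', show 2 * k + 1 + 1 = 2 * (k + 1) by ring, a, b,
      pow_succ]
    field_simp
  rw [e] at f
  field_simp at f ⊢
  linear_combination f

lemma chain (hY : ∀ j, 1 < Y j) (k : ℕ) : Ch Y k.testBit fun j => R Y j (k / 2 ^ j) := by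
  have e : ∀ j, k / 2 ^ (j + 1) = k / 2 ^ j / 2 := fun j => by rw [Nat.div_div_eq_div_mul, pow_succ]
  refine ⟨hY, fun j z h hz => ?_, fun j z h hz => ?_, fun j z hz => Rpos hY _ _ hz,
    fun j a b ha hb => ?_, fun j z hz => ((Rm hY _ _).2 z hz).1, fun j z hz => ((Rm hY _ _).2 z hz).2⟩
  · rw [Nat.testBit_eq_decide_div_mod_eq, decide_eq_false_iff_not] at h
    rw [← (Ro hY _ _ hz).1, e]; congr 1; omega
  · rw [Nat.testBit_eq_decide_div_mod_eq, decide_eq_true_eq] at h
    rw [← (Ro hY _ _ hz).2, e]; congr 1; omega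
  · have := (Rm hY j (k / 2 ^ j)).1 a b ha hb
    have r := Rpos hY j (k / 2 ^ j) ha
    rw [div_le_div_iff₀ (by linarith) (by linarith)] at this
    nlinarith

theorem gapB : ∃ Y : ℕ → ℝ, (∀ j, 1 < Y j ∧ Y j ≤ 9999) ∧ (∀ N, ∃ j ≥ N, Y j = 9999) ∧
    ∀ τ ≠ 0, ∀ M, ∃ k, M ≤ k ∧ 1 / 20 ≤ √(A Y (k + 2 * τ + 1) 0) - √(A Y (k + 1) 0) := by
  obtain ⟨Y, h1, h2, h3⟩ := gapA
  refine ⟨Y, h1, h2, fun τ h0 M => ?_⟩
  obtain ⟨k, k1, k2, k3, k4⟩ := h3 _ (chain fun j => (h1 j).1) τ h0 M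
  obtain ⟨k, rfl⟩ : ∃ l, k = 2 * l := ⟨k / 2, by omega⟩
  refine ⟨_, k1, ?_⟩
  rw [← mul_add, Ao, Ao]
  rw [← mul_add] at k4
  simp only [pow_one, Nat.mul_div_cancel_left _ two_pos] at k3 k4
  linarith [Real.sqrt_le_iff.2 ⟨by norm_num, k3⟩, Real.le_sqrt_of_sq_le k4]

structure Ms (Y : ℕ → ℝ) (μ : ℕ → Measure ℝ) : Prop where
  pr : ∀ j, IsProbabilityMeasure (μ j)
  su : ∀ j, μ j (Icc (-1) 1)ᶜ = 0
  sym : ∀ j (φ : ℝ → ℝ), Continuous φ → ∫ x, φ (-x) ∂μ j = ∫ x, φ x ∂μ j
  push : ∀ j (φ : ℝ → ℝ), Continuous φ → ∫ x, φ (g (Y j) x) ∂μ j = ∫ x, φ x ∂μ (j + 1)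

variable {μ : ℕ → Measure ℝ}

lemma Ms.int (H : Ms Y μ) (j : ℕ) {φ : ℝ → ℝ} (h : Continuous φ) : Integrable φ (μ j) :=
  have := H.pr j
  int_cont isCompact_Icc (H.su j) h

lemma Ms.orth (H : Ms Y μ) (hY : ∀ j, 1 < Y j) (n : ℕ) : ∀ j (Q : ℝ[X]), Q.natDegree < n →
    ∫ x, (P Y n j).eval x * Q.eval x ∂μ j = 0 := by
  induction n using Nat.strong_induction_on with
  | _ n ih =>
    intro j Q hQ
    have y := hY j
    have ee : ∀ k < n, ∀ i < k, ∫ x, (P Y (2 * k) j).eval x * x ^ (2 * i) ∂μ j = 0 := by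
      intro k hk i hi
      have := ih k hk (j + 1) ((X + C (Y j)) ^ i)
        (by rwa [natDegree_pow, natDegree_X_add_C, mul_one])
      rw [← H.push j _ (by fun_prop)] at this
      rw [← mul_zero ((1 + Y j) ^ k * (1 + Y j) ^ i)⁻¹, ← this, ← integral_const_mul]
      congr 1; ext x
      rw [ev hY k fun m _ => pos hY m]
      simp only [eval_pow, eval_add, eval_X, eval_C, show g (Y j) x + Y j = x ^ 2 * (1 + Y j) by
        unfold g; ring, mul_pow, pow_mul]
      field_simp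
    have od : ∀ m, (n + m) % 2 = 1 → ∫ x, (P Y n j).eval x * x ^ m ∂μ j = 0 := fun m hm => by
      have := H.sym j (fun x => (P Y n j).eval x * x ^ m) (by fun_prop)
      simp only [(Pm n j).2.2] at this
      have e : ∀ x : ℝ, (-1) ^ n * (P Y n j).eval x * (-x) ^ m = -((P Y n j).eval x * x ^ m) :=
        fun x => by
          rw [neg_pow x, mul_mul_mul_comm, ← pow_add, (Nat.odd_iff.2 hm).neg_one_pow]; ring
      simp only [e, integral_neg] at this
      linarith
    have k : ∀ m < n, ∫ x, (P Y n j).eval x * x ^ m ∂μ j = 0 := fun m hm => by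
      by_cases h : (n + m) % 2 = 1
      · exact od m h
      obtain ⟨k, rfl | rfl⟩ := Nat.even_or_odd' n
      · obtain ⟨i, rfl⟩ : ∃ i, m = 2 * i := ⟨m / 2, by omega⟩
        exact ee k (by omega) i (by omega)
      · obtain ⟨i, rfl⟩ : ∃ i, m = 2 * i + 1 := ⟨m / 2, by omega⟩
        have e : ∀ x, (P Y (2 * k + 1) j).eval x * x ^ (2 * i + 1) = (P Y (2 * (k + 1)) j).eval x *
            x ^ (2 * i) + A Y (2 * k + 1) j * ((P Y (2 * k) j).eval x * x ^ (2 * i)) := fun x => by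
          rw [mul_add 2 k, mul_one, Pe]; ring
        simp only [e]
        rw [integral_add (H.int j (by fun_prop)) (H.int j (by fun_prop)), integral_const_mul,
          ee _ (by omega) i (by omega), ee _ (by omega) i (by omega)]
        simp
    simp only [Q.eval_eq_sum_range' hQ, Finset.mul_sum, mul_left_comm _ (Q.coeff _)]
    rw [integral_finsetSum _ fun i _ => H.int j (by fun_prop)]
    exact Finset.sum_eq_zero fun i hi => by
      rw [integral_const_mul, k i (Finset.mem_range.1 hi), mul_zero]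

lemma Ms.ne (H : Ms Y μ) (hY : ∀ j, 1 < Y j) (j : ℕ) {m n : ℕ} (h : m ≠ n) :
    ∫ x, (P Y m j).eval x * (P Y n j).eval x ∂μ j = 0 := by
  rcases lt_or_gt_of_ne h with k | k
  · simpa only [mul_comm] using H.orth hY n j _ (by rwa [(Pm m j).2.1])
  · exact H.orth hY m j _ (by rwa [(Pm n j).2.1])

lemma Ms.nrm (H : Ms Y μ) (hY : ∀ j, 1 < Y j) (j n : ℕ) :
    ∫ x, x * (P Y n j).eval x * (P Y (n + 1) j).eval x ∂μ j =
      ∫ x, (P Y (n + 1) j).eval x * (P Y (n + 1) j).eval x ∂μ j ∧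
    ∫ x, (P Y (n + 1) j).eval x * (P Y (n + 1) j).eval x ∂μ j =
      A Y (n + 1) j * ∫ x, (P Y n j).eval x * (P Y n j).eval x ∂μ j := by
  have a : ∫ x, x * (P Y n j).eval x * (P Y (n + 1) j).eval x ∂μ j =
      ∫ x, (P Y (n + 1) j).eval x * (P Y (n + 1) j).eval x ∂μ j := by
    rcases n with _ | n
    · simp [P0, P1]
    have e : ∀ x, x * (P Y (n + 1) j).eval x * (P Y (n + 2) j).eval x = (P Y (n + 2) j).eval x *
        (P Y (n + 2) j).eval x + A Y (n + 1) j * ((P Y n j).eval x * (P Y (n + 2) j).eval x) :=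
      fun x => by linear_combination -(P Y (n + 2) j).eval x * Pe (Y := Y) n j x
    simp only [e]
    rw [integral_add (H.int j (by fun_prop)) (H.int j (by fun_prop)), integral_const_mul,
      H.ne hY j (show n ≠ n + 2 by omega), mul_zero, add_zero]
  refine ⟨a, a ▸ ?_⟩
  have e : ∀ x, x * (P Y n j).eval x * (P Y (n + 1) j).eval x = (P Y n j).eval x *
      (P Y (n + 2) j).eval x + A Y (n + 1) j * ((P Y n j).eval x * (P Y n j).eval x) :=
    fun x => by rw [Pe]; ring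
  simp only [e]
  rw [integral_add (H.int j (by fun_prop)) (H.int j (by fun_prop)), integral_const_mul,
    H.ne hY j (show n ≠ n + 2 by omega), zero_add]

end Pool.Agent.H.MP_28611e_an
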