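import Pool.Agent.H.MP_28611e_an.B

namespace Pool.Agent.H.MP_28611e_an

open Filter Topology MeasureTheory Set Pool.Agent.H.MP_7f7d18_an
open scoped ENNReal

variable {Y : ℕ → ℝ} {μ : ℕ → Measure ℝ}

lemma exMs (hY : ∀ j, 1 < Y j) : ∃ μ, Ms Y μ := by
  let T := Icc (-1 : ℝ) 1
  have hb : ∀ j (y : T), √((Y j + y) / (1 + Y j)) ≤ 1 := fun j y =>
    Real.sqrt_le_one.2 ((div_le_one (by linarith [hY j])).2 (by linarith [y.2.2]))
  let h : ℕ → T → T := fun j y => ⟨√((Y j + y) / (1 + Y j)),
    le_trans (by norm_num) (Real.sqrt_nonneg _), hb j y⟩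
  let n : T → T := fun y => ⟨-y, by linarith [y.2.2], by linarith [y.2.1]⟩
  have hc : ∀ j, Continuous (h j) := fun j => Continuous.subtype_mk (by fun_prop) _
  have nc : Continuous n := Continuous.subtype_mk (by fun_prop) _
  let pl : ℕ → ProbabilityMeasure T → ProbabilityMeasure T := fun j ν =>
    ⟨(2 : ℝ≥0∞)⁻¹ • ((ν : Measure T).map (h j) + (ν : Measure T).map (n ∘ h j)), ⟨by
      simp [Measure.map_apply (hc j).measurable, Measure.map_apply (nc.comp (hc j)).measurable,
        ENNReal.inv_two_add_inv_two]⟩⟩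
  have ii : ∀ (ν : Measure T) [IsFiniteMeasure ν] (φ : T → ℝ), Continuous φ → Integrable φ ν :=
    fun ν _ φ c => c.integrable_of_hasCompactSupport (HasCompactSupport.of_compactSpace φ)
  have pi : ∀ j ν (φ : ℝ → ℝ), Continuous φ → ∫ x : T, φ x ∂(pl j ν : Measure T) =
      (∫ y, φ (h j y) ∂(ν : Measure T) + ∫ y, φ (-h j y) ∂(ν : Measure T)) / 2 := by
    intro j ν φ c
    have c' : Continuous fun x : T => φ x := by fun_prop
    simp only [pl, ProbabilityMeasure.coe_mk, integral_smul_measure]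
    rw [integral_add_measure (ii _ _ c') (ii _ _ c'),
      integral_map (hc j).aemeasurable c'.aestronglyMeasurable,
      integral_map (nc.comp (hc j)).aemeasurable c'.aestronglyMeasurable]
    simp [n, div_eq_inv_mul]
  let ν : ℕ → ℕ → ProbabilityMeasure T := fun d => Nat.rec
    (fun _ => ⟨Measure.dirac ⟨1, by norm_num, le_rfl⟩, inferInstance⟩) (fun _ f j => pl j (f (j + 1))) d
  obtain ⟨m, t, ht, lm⟩ := CompactSpace.tendsto_subseq fun N j => ν (N - j) j
  have l : ∀ j (φ : ℝ → ℝ), Continuous φ → Tendsto (fun N => ∫ x : T, φ x ∂(ν (t N - j) j).toMeasure)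
      atTop (𝓝 (∫ x, φ x ∂(m j : Measure T).map Subtype.val)) := fun j φ c => by
    rw [integral_map measurable_subtype_coe.aemeasurable c.aestronglyMeasurable]
    exact ProbabilityMeasure.tendsto_iff_forall_integral_tendsto.1 (tendsto_pi_nhds.1 lm j)
      (BoundedContinuousFunction.mkOfCompact ⟨fun y => φ y, by fun_prop⟩)
  have e : ∀ j, ∀ᶠ N in atTop, ν (t N - j) j = pl j (ν (t N - (j + 1)) (j + 1)) := fun j => by
    filter_upwards [ht.tendsto_atTop.eventually_gt_atTop j] with N hN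
    rw [show t N - j = t N - (j + 1) + 1 by omega]
  refine ⟨fun j => (m j : Measure T).map Subtype.val, fun j => Measure.isProbabilityMeasure_map
    measurable_subtype_coe.aemeasurable, fun j => ?_, fun j φ c => ?_, fun j φ c => ?_⟩
  · rw [Measure.map_apply measurable_subtype_coe measurableSet_Icc.compl]
    convert measure_empty (μ := (m j : Measure T))
    ext y; simp [T]
  · refine tendsto_nhds_unique (l j _ (c.comp continuous_neg)) ((l j φ c).congr' ?_)
    filter_upwards [e j] with N hN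
    rw [hN, pi j _ φ c, pi j _ (fun x => φ (-x)) (c.comp continuous_neg)]
    simp [add_comm]
  · have gc : Continuous (g (Y j)) := by unfold g; fun_prop
    refine tendsto_nhds_unique (l j _ (c.comp gc)) ((l (j + 1) φ c).congr' ?_)
    filter_upwards [e j] with N hN
    have : ∀ y : T, g (Y j) (h j y) = y ∧ g (Y j) (-h j y) = y := fun y => by
      have := hY j
      have := y.2.1
      simp only [g, h, neg_sq]
      rw [Real.sq_sqrt (div_nonneg (by linarith) (by linarith))]
      field_simp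
      ring_nf
      trivial
    rw [hN, pi j _ (fun x => φ (g (Y j) x)) (c.comp gc)]
    simp [this]

lemma Ms.maps (H : Ms Y μ) (j : ℕ) : (μ j).map Neg.neg = μ j ∧ (μ j).map (g (Y j)) = μ (j + 1) := by
  have := H.pr
  have gc : Continuous (g (Y j)) := by unfold g; fun_prop
  constructor <;> refine ext_of_forall_integral_eq_of_IsFiniteMeasure fun f => ?_
  · rw [integral_map continuous_neg.aemeasurable f.continuous.aestronglyMeasurable, H.sym j f f.continuous]
  · rw [integral_map gc.aemeasurable f.continuous.aestronglyMeasurable, H.push j f f.continuous]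

def F {R : Type} [CommRing R] (Y : ℕ → R) (j : ℕ) : ℕ → R → R
  | 0, z => z
  | n + 1, z => 1 + (F Y j n z ^ 2 - 1) * (1 + Y (j + n))

def K (Y : ℕ → ℝ) (j : ℕ) : Set ℝ := {x | ∀ n, |F Y j n x| ≤ 1}

lemma F_cont {R : Type} [CommRing R] [TopologicalSpace R] [IsTopologicalRing R] (Y : ℕ → R)
    (j n : ℕ) : Continuous (F Y j n) := by
  induction n with
  | zero => exact continuous_id
  | succ n ih => exact continuous_const.add (((ih.pow 2).sub continuous_const).mul continuous_const)

lemma F_coe (n : ℕ) (x : ℝ) : F (fun j => (Y j : ℂ)) 0 n x = (F Y 0 n x : ℝ) := by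
  induction n with
  | zero => rfl
  | succ n ih => simp [F, ih]

lemma F_shift (j n : ℕ) (x : ℝ) : F Y j (n + 1) x = F Y (j + 1) n (g (Y j) x) := by
  induction n with
  | zero => rfl
  | succ n ih => rw [F, ih, F, add_right_comm, add_assoc]

lemma K_sub (j : ℕ) : K Y j ⊆ Icc (-1) 1 := fun _ h => abs_le.1 (h 0)

lemma K_closed (j : ℕ) : IsClosed (K Y j) := by
  rw [K, ofPred_forall]
  exact isClosed_iInter fun n => isClosed_le (F_cont Y j n).abs continuous_const

lemma Ms.aeK (H : Ms Y μ) (j : ℕ) : ∀ᵐ x ∂μ j, x ∈ K Y j := by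
  refine ae_all_iff.2 fun n => ?_
  induction n generalizing j with
  | zero => exact (show ∀ᵐ x ∂μ j, x ∈ Icc (-1 : ℝ) 1 from H.su j).mono fun x h => abs_le.2 h
  | succ n ih =>
    have := ih (j + 1)
    rw [← (H.maps j).2] at this
    simpa only [F_shift] using ae_of_ae_map (by unfold g; fun_prop) this

noncomputable def lam (E : Set ℝ) : ℝ≥0∞ := ∫⁻ x in E, ENNReal.ofReal (√(1 - x ^ 2)⁻¹)

lemma lam_step (j : ℕ) {κ : ℝ} (h0 : 0 ≤ κ) (hY : 1 < Y j) (h : κ ^ 2 ≤ 2 * (1 + Y j)) :
    ENNReal.ofReal κ * lam (K Y j) ≤ 2 * lam (K Y (j + 1)) := by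
  have one : ∀ S : Set ℝ, MeasurableSet S → InjOn (g (Y j)) S →
      ENNReal.ofReal κ * lam (K Y j ∩ S) ≤ lam (K Y (j + 1)) := by
    intro S hS hi
    have mS := (K_closed (Y := Y) j).measurableSet.inter hS
    refine le_trans ?_ (lintegral_mono_set (s := g (Y j) '' (K Y j ∩ S)) ?_)
    · rw [lintegral_image_eq_lintegral_abs_deriv_mul mS (f' := fun x => 2 * x * (1 + Y j))
        (fun x _ => HasDerivAt.hasDerivWithinAt ?_) (hi.mono inter_subset_right), lam,
        ← lintegral_const_mul' _ _ ENNReal.ofReal_ne_top]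
      · refine setLIntegral_mono_ae (by unfold g; fun_prop) ?_
        have : ({√(1 - 2 / (1 + Y j)), -√(1 - 2 / (1 + Y j))} : Set ℝ).Finite := toFinite _
        filter_upwards [this.countable.ae_notMem volume] with x x1 hx
        have a := abs_le.1 (hx.1 0)
        have b := abs_le.1 (hx.1 1)
        change _ ≤ x ∧ x ≤ _ at a
        change _ ≤ g (Y j) x ∧ g (Y j) x ≤ _ at b
        rw [← ENNReal.ofReal_mul h0, ← ENNReal.ofReal_mul (abs_nonneg _)]
        refine ENNReal.ofReal_le_ofReal ?_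
        have x2 : x ^ 2 ≤ 1 := by nlinarith
        rcases x2.eq_or_lt with e | e
        · rw [e]; simp; positivity
        have b1 : -1 < g (Y j) x := b.1.lt_of_ne fun k => x1 (by
          have : x ^ 2 = 1 - 2 / (1 + Y j) := by unfold g at k; field_simp; linarith
          rw [← this, Real.sqrt_sq_eq_abs]
          rcases abs_choice x with l | l <;> simp [l])
        have u : 1 - g (Y j) x = (1 - x ^ 2) * (1 + Y j) := by unfold g; ring
        have v : 1 - g (Y j) x ^ 2 = (1 - x ^ 2) * (1 + Y j) * (1 + g (Y j) x) := by rw [← u]; ring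
        have e1 : 0 < 1 - x ^ 2 := by linarith
        have e2 : 0 < 1 + g (Y j) x := by linarith
        refine le_of_sq_le_sq ?_ (by positivity)
        rw [mul_pow, mul_pow, Real.sq_sqrt (by positivity), Real.sq_sqrt (by rw [v]; positivity),
          sq_abs, v, ← div_eq_mul_inv, ← div_eq_mul_inv, div_le_div_iff₀ e1 (by positivity)]
        have w : 1 + g (Y j) x ≤ 2 * x ^ 2 := by nlinarith
        calc _ ≤ 2 * (1 + Y j) * ((1 - x ^ 2) * (1 + Y j) * (2 * x ^ 2)) := by gcongr
          _ = _ := by ring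
      · unfold g
        simpa using (((hasDerivAt_pow 2 x).sub_const 1).mul_const (1 + Y j)).const_add 1
    · rintro _ ⟨x, hx, rfl⟩ n
      rw [← F_shift]; exact hx.1 _
  have inj : ∀ a b, g (Y j) a = g (Y j) b → a ^ 2 = b ^ 2 := fun a b e => by
    unfold g at e
    have := mul_right_cancel₀ (by linarith) (add_left_cancel e)
    linarith
  have a := one (Ici 0) measurableSet_Ici fun a ha b hb e => (pow_left_inj₀ ha hb two_ne_zero).1 (inj a b e)
  have b := one (Iic 0) measurableSet_Iic fun a ha b hb e => neg_injective ((pow_left_inj₀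
    (neg_nonneg.2 ha) (neg_nonneg.2 hb) two_ne_zero).1 (by simpa using inj a b e))
  rw [two_mul]
  refine le_trans ?_ (add_le_add a b)
  rw [← mul_add]
  gcongr
  refine le_trans (le_of_eq ?_) (lintegral_union_le _ _ _)
  rw [← inter_union_distrib_left, Ici_union_Iic, inter_univ, lam]

lemma null (hY : ∀ j, 1 < Y j) (h : ∀ N, ∃ j ≥ N, Y j = 9999) : volume (K Y 0) = 0 := by
  have T : lam (Icc (-1) 1) < ⊤ := ((intervalIntegrable_iff_integrableOn_Icc_of_le (by norm_num)).1
    Polynomial.Chebyshev.intervalIntegrable_sqrt_one_sub_sq_inv).lintegral_lt_top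
  have mo : Monotone fun j => lam (K Y j) := monotone_nat_of_le_succ fun j =>
    (ENNReal.mul_le_mul_iff_right two_ne_zero ENNReal.ofNat_ne_top).1 (by
      simpa using lam_step j (κ := 2) (by norm_num) (hY j) (by linarith [hY j]))
  have k : ∀ n j, 2 ^ n * lam (K Y j) ≤ lam (Icc (-1) 1) := fun n => by
    induction n with
    | zero => exact fun j => by rw [pow_zero, one_mul]; exact lintegral_mono_set (K_sub j)
    | succ n ih =>
      intro j
      obtain ⟨i, i1, i2⟩ := h j
      have := lam_step i (κ := 2 * 2) (by norm_num) (hY i) (by rw [i2]; norm_num)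
      rw [ENNReal.ofReal_mul (by norm_num), ENNReal.ofReal_ofNat, mul_assoc,
        ENNReal.mul_le_mul_iff_right two_ne_zero ENNReal.ofNat_ne_top] at this
      refine le_trans ?_ (ih (i + 1))
      rw [pow_succ, mul_assoc]
      gcongr
      exact le_trans (by gcongr; exact mo i1) this
  have z : lam (K Y 0) = 0 := by
    by_contra z
    have := (ENNReal.Tendsto.mul_const (ENNReal.tendsto_pow_atTop_nhds_top_iff.2
      (show (1 : ℝ≥0∞) < 2 by norm_num)) (Or.inl ENNReal.top_ne_zero) (b := lam (K Y 0)))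
    rw [ENNReal.top_mul z] at this
    exact T.not_ge (le_of_tendsto' this fun n => k n 0)
  rw [lam, lintegral_eq_zero_iff (by fun_prop), Filter.EventuallyEq,
    ae_restrict_iff' (K_closed 0).measurableSet] at z
  have : ({-1, 1} : Set ℝ).Finite := toFinite _
  refine measure_eq_zero_iff_ae_notMem.2 ?_
  filter_upwards [z, this.countable.ae_notMem volume] with x h1 h2 hx
  have a := K_sub 0 hx
  simp only [mem_insert_iff, mem_singleton_iff, not_or] at h2
  have : 0 < 1 - x ^ 2 := by nlinarith [a.1.lt_of_ne' h2.1, a.2.lt_of_ne h2.2]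
  exact (ENNReal.ofReal_pos.2 (by positivity)).ne' (h1 hx)

noncomputable def ph (z : ℂ) : ℝ := (‖z - 1‖ + ‖z + 1‖) / 2

lemma ph_b (z : ℂ) : 1 ≤ ph z ∧ ‖z‖ ≤ ph z ∧ ph z ≤ ‖z‖ + 1 := by
  have a := norm_sub_le (z + 1) (z - 1)
  have b := norm_add_le (z - 1) (z + 1)
  have c := norm_sub_le z 1
  have d := norm_add_le z 1
  rw [show z + 1 - (z - 1) = 2 by ring] at a
  rw [show z - 1 + (z + 1) = 2 * z by ring] at b
  simp only [norm_mul, Complex.norm_ofNat, norm_one] at *
  unfold ph
  exact ⟨by linarith, by linarith, by linarith⟩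

lemma ph_re {x : ℝ} (h : |x| ≤ 1) : ph x = 1 := by
  rw [abs_le] at h
  rw [ph, ← Complex.ofReal_one, ← Complex.ofReal_sub, ← Complex.ofReal_add, Complex.norm_real,
    Complex.norm_real, Real.norm_of_nonpos (by linarith), Real.norm_of_nonneg (by linarith)]
  ring

lemma ph_sq (z : ℂ) : 2 * ph z ^ 2 - 1 = ‖z ^ 2‖ + ‖z ^ 2 - 1‖ := by
  have := parallelogram_law_with_norm ℝ z 1
  rw [show z ^ 2 - 1 = (z - 1) * (z + 1) by ring, norm_mul, norm_pow, ph]
  simp only [norm_one] at this
  nlinarith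

lemma ph_one {z : ℂ} (h : ph z ≤ 1) : ∃ x : ℝ, |x| ≤ 1 ∧ z = x := by
  have a := Complex.abs_re_le_norm (z - 1)
  have b := Complex.abs_re_le_norm (z + 1)
  have c := ph_b z
  have d := Complex.abs_re_le_norm z
  simp only [Complex.sub_re, Complex.add_re, Complex.one_re] at a b
  have e : |(z + 1).re| = ‖z + 1‖ := by
    simp only [Complex.add_re, Complex.one_re]
    unfold ph at h
    linarith [neg_abs_le (z.re - 1), le_abs_self (z.re + 1)]
  exact ⟨z.re, by linarith, Complex.ext rfl (by simpa using Complex.abs_re_eq_norm.1 e)⟩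

lemma ph_g {y : ℝ} (h1 : 1 < y) (h2 : y ≤ 9999) (z : ℂ) :
    2 * ph z ^ 2 - 1 ≤ ph (1 + (z ^ 2 - 1) * (1 + y)) ∧
      ph (1 + (z ^ 2 - 1) * (1 + y)) ≤ 30000 * ph z ^ 2 := by
  have n : ‖(1 + y : ℂ)‖ = 1 + y := by
    rw [← Complex.ofReal_one, ← Complex.ofReal_add, Complex.norm_real, Real.norm_of_nonneg (by linarith)]
  have n' : ‖(y - 1 : ℂ)‖ = y - 1 := by
    rw [← Complex.ofReal_one, ← Complex.ofReal_sub, Complex.norm_real, Real.norm_of_nonneg (by linarith)]
  constructor
  · have := norm_sub_le (1 + (z ^ 2 - 1) * (1 + y) + 1) ((z ^ 2 - 1) * (y - 1))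
    rw [show 1 + (z ^ 2 - 1) * (1 + y) + 1 - (z ^ 2 - 1) * (y - 1) = 2 * z ^ 2 by ring, norm_mul,
      norm_mul, n', Complex.norm_ofNat] at this
    rw [ph_sq, ph, add_sub_cancel_left, norm_mul, n]
    linarith
  · have a := norm_add_le 1 ((z ^ 2 - 1) * (1 + y))
    have b := ph_sq z
    have c := ph_b z
    rw [norm_mul, n, norm_one] at a
    nlinarith [(ph_b (1 + (z ^ 2 - 1) * (1 + y))).2.2, norm_nonneg (z ^ 2), norm_nonneg (z ^ 2 - 1)]

lemma ph_F (hY : ∀ j, 1 < Y j ∧ Y j ≤ 9999) (z : ℂ) (n : ℕ) :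
    1 + 4 ^ n * (ph z - 1) ≤ ph (F (fun j => (Y j : ℂ)) 0 n z) := by
  induction n with
  | zero => simp [F]
  | succ n ih =>
    refine le_trans ?_ (ph_g (hY _).1 (hY _).2 _).1
    rw [pow_succ]
    nlinarith [sq_nonneg (ph (F (fun j => (Y j : ℂ)) 0 n z) - 1)]

lemma ph_top (hY : ∀ j, 1 < Y j ∧ Y j ≤ 9999) {z : ℂ} (hz : 1 < ph z) :
    Tendsto (fun n => ph (F (fun j => (Y j : ℂ)) 0 n z)) atTop atTop :=
  tendsto_atTop_mono (ph_F hY z) (tendsto_atTop_add_const_left _ _
    ((tendsto_pow_atTop_atTop_of_one_lt (by norm_num)).atTop_mul_const (by linarith)))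

lemma filled (hY : ∀ j, 1 < Y j ∧ Y j ≤ 9999) :
    {z : ℂ | ∃ M : ℝ, ∀ n, ‖F (fun j => (Y j : ℂ)) 0 n z‖ ≤ M} = Complex.ofReal '' K Y 0 := by
  ext z
  constructor
  · rintro ⟨M, hM⟩
    have k : ∀ n, ph (F (fun j => (Y j : ℂ)) 0 n z) ≤ 1 := fun n => by
      by_contra l
      have e : ∀ m, F (fun j => (Y j : ℂ)) 0 (n + m) z =
          F (fun j => (Y (n + j) : ℂ)) 0 m (F (fun j => (Y j : ℂ)) 0 n z) := fun m => by
        induction m with
        | zero => rfl
        | succ m ih => rw [← add_assoc, F, F, ih, zero_add, zero_add]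
      obtain ⟨m, hm⟩ := ((ph_top (fun j => hY (n + j)) (not_le.1 l)).eventually_gt_atTop (M + 1)).exists
      rw [← e] at hm
      linarith [(ph_b (F (fun j => (Y j : ℂ)) 0 (n + m) z)).2.2, hM (n + m)]
    obtain ⟨x, -, rfl⟩ := ph_one (k 0)
    refine ⟨x, fun n => ?_, rfl⟩
    obtain ⟨y, y1, y2⟩ := ph_one (k n)
    rw [F_coe, Complex.ofReal_inj] at y2
    exact y2 ▸ y1
  · rintro ⟨x, hx, rfl⟩
    exact ⟨1, fun n => by rw [F_coe, Complex.norm_real]; exact hx n⟩

lemma Ms.pot (H : Ms Y μ) (hY : ∀ j, 1 < Y j ∧ Y j ≤ 9999) : ∃ G : ℂ → ℝ, Continuous G ∧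
    (∀ z : ℂ, z.im ≠ 0 → ∫ y : ℝ, Real.log ‖z - y‖ ∂μ 0 = G z) ∧ ∀ t ∈ K Y 0, G t = G 1 := by
  have := H.pr
  have ae : ∀ j, ∀ᵐ y ∂μ j, y ∈ Icc (-1 : ℝ) 1 := H.su
  have ne : ∀ z, 1 < ph z → ∀ x ∈ Icc (-1 : ℝ) 1, ‖z - x‖ ≠ 0 := fun z hz x hx e => by
    rw [norm_eq_zero, sub_eq_zero] at e
    rw [e, ph_re (abs_le.2 hx)] at hz
    exact hz.false
  have ii : ∀ j z, 1 < ph z → Integrable (fun y : ℝ => Real.log ‖z - y‖) (μ j) := fun j z hz => by
    have := (ContinuousOn.log (f := fun y : ℝ => ‖z - y‖) (by fun_prop) (ne z hz)).integrableOn_compact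
      (μ := μ j) isCompact_Icc
    rwa [IntegrableOn, Measure.restrict_eq_self_of_ae_mem (ae j)] at this
  have st : ∀ j z, 1 < ph z → ∫ y : ℝ, Real.log ‖z - y‖ ∂μ j =
      (∫ y : ℝ, Real.log ‖1 + (z ^ 2 - 1) * (1 + Y j) - y‖ ∂μ (j + 1) - Real.log (1 + Y j)) / 2 := by
    intro j z hz
    have y := (hY j).1
    have i1 := ii j z hz
    have i2 := i1
    have a : ∫ y : ℝ, Real.log ‖z - y‖ ∂μ j = ∫ y : ℝ, Real.log ‖z - (-y : ℝ)‖ ∂μ j := by
      conv_lhs => rw [← (H.maps j).1]
      exact integral_map continuous_neg.aemeasurable (Measurable.aestronglyMeasurable (by fun_prop))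
    rw [← (H.maps j).1, integrable_map_measure (Measurable.aestronglyMeasurable (by fun_prop))
      continuous_neg.aemeasurable] at i2
    rw [← (H.maps j).2, integral_map (by unfold g; fun_prop)
      (Measurable.aestronglyMeasurable (by fun_prop)), integral_congr_ae (f := fun x : ℝ =>
        Real.log ‖1 + (z ^ 2 - 1) * (1 + Y j) - g (Y j) x‖) (g := fun y : ℝ =>
        Real.log ‖z - y‖ + Real.log ‖z - (-y : ℝ)‖ + Real.log (1 + Y j)) ?_,
      integral_add (f := fun y : ℝ => Real.log ‖z - y‖ + Real.log ‖z - (-y : ℝ)‖) (i1.add i2)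
        (integrable_const _), integral_add (g := fun y : ℝ => Real.log ‖z - (-y : ℝ)‖) i1 i2, ← a]
    · simp
    filter_upwards [ae j] with x hx
    have n1 := ne z hz x hx
    have n2 := ne z hz (-x) ⟨by linarith [hx.2], by linarith [hx.1]⟩
    rw [← Real.log_mul n1 n2, ← Real.log_mul (mul_ne_zero n1 n2) (by linarith), ← norm_mul,
      ← Real.norm_of_nonneg (show 0 ≤ 1 + Y j by linarith), ← Complex.norm_real, ← norm_mul]
    congr 2
    simp only [g]
    push_cast
    ring
  set Z := F (fun j => (Y j : ℂ)) 0 with hZ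
  let c : ℕ → ℝ := fun n => ∑ i ∈ Finset.range n, Real.log (1 + Y i) / 2 ^ (i + 1)
  have rc : ∀ z, 1 < ph z → ∀ n, ∫ y : ℝ, Real.log ‖z - y‖ ∂μ 0 =
      (∫ y : ℝ, Real.log ‖Z n z - y‖ ∂μ n) / 2 ^ n - c n := fun z hz n => by
    induction n with
    | zero => simp [c, hZ, F]
    | succ n ih =>
      have : 1 < ph (Z n z) := lt_of_lt_of_le (lt_add_of_pos_right _ (by
        have := sub_pos.2 hz; positivity)) (ph_F hY z n)
      rw [ih, st n _ this]
      simp only [c, Finset.sum_range_succ, hZ, F, zero_add]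
      ring
  set h : ℕ → ℂ → ℝ := fun m z => Real.log (ph (Z m z)) / 2 ^ m - c m with hh
  have hd : ∀ z m, dist (h m z) (h (m + 1) z) ≤ 40000 / 2 / 2 ^ m := fun z m => by
    have y := hY m
    obtain ⟨a, b⟩ := ph_g y.1 y.2 (Z m z)
    have p := (ph_b (Z m z)).1
    have e : Z (m + 1) z = 1 + (Z m z ^ 2 - 1) * (1 + Y m) := by simp [hZ, F]
    rw [← e] at a b
    have v1 := Real.log_le_log (by positivity) (show ph (Z m z) ^ 2 ≤ _ from le_trans (by nlinarith) a)
    have v2 := Real.log_le_log (by nlinarith) b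
    rw [Real.log_mul (by norm_num) (by positivity)] at v2
    rw [Real.log_pow] at v1 v2
    have l1 := Real.log_le_self (show (0 : ℝ) ≤ 30000 by norm_num)
    have l2 := Real.log_le_self (show 0 ≤ 1 + Y m by linarith)
    have l3 := Real.log_nonneg (show 1 ≤ 1 + Y m by linarith)
    have : h m z - h (m + 1) z = (2 * Real.log (ph (Z m z)) - Real.log (ph (Z (m + 1) z)) +
        Real.log (1 + Y m)) / 2 / 2 ^ m := by
      simp only [hh, c, Finset.sum_range_succ]; ring
    rw [Real.dist_eq, this, abs_div, abs_div, abs_of_pos (by positivity : (0 : ℝ) < 2 ^ m),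
      abs_two]
    gcongr
    push_cast at v1 v2
    exact abs_le.2 ⟨by linarith, by linarith⟩
  choose G hG using fun z => cauchySeq_tendsto_of_complete (cauchySeq_of_le_geometric_two (hd z))
  have t2 : ∀ a : ℝ, Tendsto (fun m : ℕ => a / 2 ^ m) atTop (𝓝 0) := fun a =>
    tendsto_const_nhds.div_atTop (tendsto_pow_atTop_atTop_of_one_lt (by norm_num))
  refine ⟨G, ?_, fun z hz => ?_, fun t ht => tendsto_nhds_unique (hG t) ((hG 1).congr fun m => ?_)⟩
  · refine TendstoUniformly.continuous (F := h) (p := atTop) ?_ (Frequently.of_forall fun m => ?_)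
    · refine Metric.tendstoUniformly_iff.2 fun ε hε => ?_
      filter_upwards [(t2 40000).eventually (gt_mem_nhds hε)] with m hm z
      rw [dist_comm]
      exact (dist_le_of_le_geometric_two_of_tendsto (hd z) (hG z) m).trans_lt hm
    · have := F_cont (fun j => (Y j : ℂ)) 0 m
      refine ((Continuous.log (by unfold ph; fun_prop) fun z => ?_).div_const _).sub continuous_const
      exact (one_pos.trans_le (ph_b _).1).ne'
  · have z1 : 1 < ph z := not_le.1 fun k => by
      obtain ⟨x, -, rfl⟩ := ph_one k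
      simp at hz
    refine tendsto_nhds_unique ?_ (hG z)
    refine tendsto_iff_norm_sub_tendsto_zero.2 (squeeze_zero' (Eventually.of_forall fun _ =>
      norm_nonneg _) ?_ (t2 (Real.log 2)))
    filter_upwards [(ph_top hY z1).eventually_ge_atTop 4] with m hm
    rw [rc z z1 m, hh, sub_sub_sub_cancel_right, ← sub_div, norm_div, norm_pow, Real.norm_ofNat,
      norm_sub_rev]
    gcongr
    have := norm_integral_le_of_norm_le_const (μ := μ m) (C := Real.log 2)
      (f := fun y : ℝ => Real.log ‖Z m z - y‖ - Real.log (ph (Z m z))) ?_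
    · rw [integral_sub (ii _ _ (by linarith)) (integrable_const _)] at this
      simpa using this
    filter_upwards [ae m] with x hx
    have a := abs_le.1 (abs_norm_sub_norm_le (Z m z - x) (Z m z))
    have b := ph_b (Z m z)
    rw [sub_sub_cancel_left, norm_neg, Complex.norm_real, Real.norm_eq_abs] at a
    have c := abs_le.2 hx
    have v1 := Real.log_le_log (by linarith) (show ‖Z m z - x‖ ≤ 2 * ph (Z m z) by linarith)
    have v2 := Real.log_le_log (by linarith) (show ph (Z m z) ≤ 2 * ‖Z m z - x‖ by linarith)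
    rw [Real.log_mul two_ne_zero (by linarith)] at v1 v2
    exact abs_le.2 ⟨by linarith, by linarith⟩
  · have : ∀ n, F Y 0 n 1 = 1 := fun n => by induction n <;> simp [F, *]
    simp only [hh, hZ]
    rw [← Complex.ofReal_one, F_coe, F_coe, ph_re (ht m), this, ph_re (by simp)]

end Pool.Agent.H.MP_28611e_an
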