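import Pool.Agent.H.MP_28611e_an.C

namespace Pool.Agent.H.MP_28611e_an

open Filter Topology MeasureTheory Set Polynomial Pool.Agent.H.MP_7f7d18_an
open scoped ENNReal

variable {Y : ℕ → ℝ} {μ : ℕ → Measure ℝ}

lemma shift {S : Set ℝ} {D E : ℝ} (h0 : 0 < D) (h : D ≤ E) (hS : ∀ x ∈ S, ∀ y ∈ S, |x - y| ≤ D)
    (ν : Measure ℝ) [IsProbabilityMeasure ν] (hν : ν Sᶜ = 0) :
    ∫⁻ x, U E ν x ∂ν = ∫⁻ x, U D ν x ∂ν + ENNReal.ofReal (Real.log (E / D)) := by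
  have ae : ∀ᵐ x ∂ν, x ∈ S := hν
  rw [lintegral_congr_ae (g := fun x => U D ν x + ENNReal.ofReal (Real.log (E / D))),
    lintegral_add_right _ measurable_const]
  · simp
  filter_upwards [ae] with x hx
  rw [U, lintegral_congr_ae (g := fun y => k D x y + ENNReal.ofReal (Real.log (E / D))),
    lintegral_add_right _ measurable_const, U]
  · simp
  filter_upwards [ae] with y hy
  unfold k
  split_ifs with e
  · simp
  have p : 0 < |x - y| := abs_pos.2 (sub_ne_zero.2 e)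
  rw [← ENNReal.ofReal_add (Real.log_nonneg ((one_le_div p).2 (hS x hx y hy)))
    (Real.log_nonneg ((one_le_div h0).2 h)), ← Real.log_mul (by positivity)
      (div_pos (h0.trans_le h) h0).ne']
  congr 2
  field_simp

lemma K_cpt : IsCompact (K Y 0) := isCompact_Icc.of_isClosed_subset (K_closed 0) (K_sub 0)

lemma K_diam : Metric.diam (K Y 0) ≤ 2 :=
  (Metric.diam_mono (K_sub 0) (Metric.isBounded_Icc _ _)).trans_eq
    ((Real.diam_Icc (by norm_num)).trans (by norm_num))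

lemma Ms.eqm (H : Ms Y μ) (hY : ∀ j, 1 < Y j ∧ Y j ≤ 9999) :
    (∀ z : ℂ, Integrable (fun y : ℝ => Real.log ‖z - y‖) (μ 0)) ∧
    Continuous (fun z : ℂ => ∫ y : ℝ, Real.log ‖z - y‖ ∂μ 0) ∧
    (∀ x ∈ K Y 0, ∫ y : ℝ, Real.log ‖(x : ℂ) - y‖ ∂μ 0 =
      Real.log 7 - (∫⁻ x, U 7 (μ 0) x ∂μ 0).toReal) ∧
    ∀ D, 0 < D → D ≤ 7 → (∀ x ∈ K Y 0, ∀ y ∈ K Y 0, |x - y| ≤ D) → ∫⁻ x, U D (μ 0) x ∂μ 0 < ⊤ ∧
      ∀ ν : Measure ℝ, IsProbabilityMeasure ν → ν (K Y 0)ᶜ = 0 →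
        ∫⁻ x, U D (μ 0) x ∂μ 0 ≤ ∫⁻ x, U D ν x ∂ν := by
  have := H.pr
  obtain ⟨G, g1, g2, g3⟩ := H.pot hY
  have m3 : μ 0 (Icc (-3) 3)ᶜ = 0 := measure_mono_null (compl_subset_compl.2
    (Icc_subset_Icc (by norm_num) (by norm_num))) (H.su 0)
  have ri : ∀ z : ℂ, Integrable (fun y : ℝ => Real.log ‖z - y‖) (μ 0) ∧
      ∫ y : ℝ, Real.log ‖z - y‖ ∂μ 0 = G z := fun z => by
    by_cases hz : z.im = 0
    · obtain ⟨t, rfl⟩ : ∃ t : ℝ, z = t := ⟨z.re, Complex.ext rfl hz⟩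
      simpa only [← Complex.ofReal_sub, Complex.norm_real, Real.norm_eq_abs] using
        (MP_25eb51_an.real_int m3 g1 g2 t).2
    · exact ⟨H.int 0 (Continuous.log (by fun_prop) fun y => norm_ne_zero_iff.2 fun e => hz (by
        simpa using congrArg Complex.im e)), g2 z hz⟩
  obtain ⟨e1, e2⟩ := MP_7fabd3_an.is_min (ρ := μ 0) K_cpt (K_diam.trans_lt (show _ < 7 by norm_num))
    (H.aeK 0) (e := ENNReal.ofReal (Real.log 7 - G 1)) ENNReal.ofReal_lt_top fun t ht => by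
      rw [MP_25eb51_an.real_pot m3 g1 g2 t (by linarith [abs_le.2 (K_sub 0 ht)]), g3 t ht]
  refine ⟨fun z => (ri z).1, by simpa only [fun z => (ri z).2] using g1, fun x hx => ?_,
    fun D d0 d1 d2 => ?_⟩
  · have : G 1 ≤ Real.log 7 := by
      rw [← (ri 1).2]
      refine (integral_mono_ae (ri 1).1 (integrable_const (Real.log 7)) ?_).trans (by simp)
      filter_upwards [show ∀ᵐ y ∂μ 0, y ∈ Icc (-1 : ℝ) 1 from H.su 0] with y hy
      have := norm_sub_le (1 : ℂ) y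
      rw [norm_one, Complex.norm_real, Real.norm_eq_abs] at this
      rcases (norm_nonneg ((1 : ℂ) - y)).eq_or_lt with e | e
      · rw [← e, Real.log_zero]; positivity
      · exact Real.log_le_log e (by linarith [abs_le.2 hy])
    rw [(ri _).2, g3 x hx, e1, ENNReal.toReal_ofReal (by linarith), sub_sub_cancel]
  · have a := shift d0 d1 d2 (μ 0) (H.aeK 0)
    refine ⟨le_self_add.trans_lt (a ▸ e1 ▸ ENNReal.ofReal_lt_top), fun ν _ hν => ?_⟩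
    have := e2 ν inferInstance hν
    rwa [a, shift d0 d1 d2 ν hν, ENNReal.add_le_add_iff_right ENNReal.ofReal_ne_top] at this

lemma Ms.on (H : Ms Y μ) (hY : ∀ j, 1 < Y j) : ∃ p : ℕ → ℝ[X],
    (∀ n, (p n).natDegree = n ∧ 0 < (p n).leadingCoeff) ∧
    (∀ m n, ∫ x, (p m).eval x * (p n).eval x ∂μ 0 = if m = n then 1 else 0) ∧
    ∀ n, ∫ x, x * (p n).eval x * (p (n + 1)).eval x ∂μ 0 = √(A Y (n + 1) 0) := by
  have := H.pr
  set N : ℕ → ℝ := fun n => ∫ x, (P Y n 0).eval x * (P Y n 0).eval x ∂μ 0 with hN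
  have N0 : ∀ n, 0 < N n := fun n => by
    induction n with
    | zero => simp [hN, P0]
    | succ n ih => exact (mul_pos (Apos hY n 0) ih).trans_eq (H.nrm hY 0 n).2.symm
  have s0 : ∀ n, 0 < √(N n) := fun n => Real.sqrt_pos.2 (N0 n)
  refine ⟨fun n => C (√(N n))⁻¹ * P Y n 0, fun n => ?_, fun m n => ?_, fun n => ?_⟩
  · rw [natDegree_C_mul (inv_pos.2 (s0 n)).ne', leadingCoeff_C_mul_of_isUnit
      (inv_pos.2 (s0 n)).ne'.isUnit, (Pm n 0).1.leadingCoeff, mul_one]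
    exact ⟨(Pm n 0).2.1, inv_pos.2 (s0 n)⟩
  · simp only [eval_mul, eval_C, mul_mul_mul_comm _ ((P Y m 0).eval _), integral_const_mul]
    split_ifs with h
    · rw [h, ← mul_inv, Real.mul_self_sqrt (N0 n).le]; exact inv_mul_cancel₀ (N0 n).ne'
    · rw [H.ne hY 0 h, mul_zero]
  · have e : ∀ x, x * (C (√(N n))⁻¹ * P Y n 0).eval x * (C (√(N (n + 1)))⁻¹ * P Y (n + 1) 0).eval x =
        ((√(N n))⁻¹ * (√(N (n + 1)))⁻¹) * (x * (P Y n 0).eval x * (P Y (n + 1) 0).eval x) :=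
      fun x => by simp only [eval_mul, eval_C]; ring
    have f : N (n + 1) = A Y (n + 1) 0 * N n := (H.nrm hY 0 n).2
    have a := (Apos hY n 0).le
    simp only [e]
    rw [integral_const_mul, (H.nrm hY 0 n).1]
    change _ * N (n + 1) = _
    have := s0 n
    have := Real.sqrt_pos.2 (Apos hY n 0)
    rw [f, Real.sqrt_mul a]
    field_simp
    rw [Real.sq_sqrt a, Real.sq_sqrt (N0 n).le, mul_comm]

lemma notAP0 {a : ℕ → ℝ} {δ : ℝ} (hδ : 0 < δ)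
    (h : ∀ τ ≠ 0, ∀ M, ∃ k, M ≤ k ∧ δ ≤ a (k + 2 * τ) - a k) {c : ℤ → ℝ}
    (hc : ∀ ε : ℝ, 0 < ε → ∃ τ : ℕ, τ ≠ 0 ∧ ∀ n : ℤ, |c (n + τ) - c n| < ε)
    (ht : Tendsto (fun n : ℕ => a n - c n) atTop (𝓝 0)) : False := by
  obtain ⟨τ, t1, t2⟩ := hc (δ / 4) (by linarith)
  obtain ⟨M, hM⟩ := Metric.tendsto_atTop.1 ht (δ / 4) (by linarith)
  obtain ⟨k, k1, k2⟩ := h τ t1 M
  have a1 := abs_lt.1 (t2 k)
  have a2 := abs_lt.1 (t2 (k + τ))
  have a3 := hM k k1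
  have a4 := hM (k + 2 * τ) (by omega)
  rw [Real.dist_eq, sub_zero, abs_lt] at a3 a4
  rw [show ((k + 2 * τ : ℕ) : ℤ) = k + τ + τ by push_cast; ring] at a4
  linarith

end Pool.Agent.H.MP_28611e_an
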